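import Mathlib
import Pool.Agent.U47.QE.Final
import Pool.Agent.U47.QF.MainT

/-!
# Vojta's conjecture with truncated counting function above the quadratic points of elliptic curves

Let `K` be a number field and `E : y² = x³ + a x + b` an elliptic curve over `K` of any rank.
There is ONE set `Exc` of quadratic points of `E`, of density zero among all the points of `E` of
degree two over `K` (ordered by the height of `x`), such that all the quadratic points `Q` outside
of `Exc` have the following properties.

(I) For every reduced effective divisor `D` of `E` over `K` whose points have degree at most five,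
every finite set `S` of places and every `ε > 0`: `(deg D / 2 - ε) h(x(Q)) ≤ N_S^(1)(D, Q) + O(1)`.
Since `K_E = 0` and `h_D = (deg D / 2) h(x) + O(√h)`, this is Vojta's inequality with truncated
counting function on `X = E`, without the discriminant term.

(II) Let `k ⊇ K` be any number field, `C` any smooth projective curve over `k` and `t` a finite map
of degree `N` from `C` to the `x`-line of `E` (with any coordinate over `K` on this line), for
example any map `C → E` followed by `x`, which is unramified outside the fibres over finitely many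
points `α_1, …, α_q` of `k` such that the points of `E` above the `α_j` have degree at most five over
`K` (this holds if the `α_j` have degree at most two over `K` or are branch points of `x : E → ℙ¹`).
Let `D` be any reduced divisor contained in these fibres and `S` a finite set of places. Let `A` be
the ring of the functions on `C` with poles only over `t = ∞`: a Dedekind domain, finite over `k[t]`.
If `F_j` is the ideal of the points over `α_j` which are not points of `D`, then
`2 + deg (K_C + D) / N = q - (∑_j dim (A / F_j)) / N`.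
Then ALL points `P` of `C` above all quadratic points `Q` outside of `Exc`, with values in ANY number
field `L ⊇ k`, satisfy `h_{K_C + D}(P) + 2 h(t(P)) ≤ N_S^(1)(D, P) + d(L) + κ h(t(P)) + O(1)` for all
`κ > 0` (if the height of a divisor of degree `d` on `C` is replaced by `d h(t(P)) / N`). This is the
inequality of the conjecture, with the additional term `2 h(t(P))` on the left hand side.

Heights, counting functions and discriminants are relative to `K`; multiplying by `[k : K]` gives the
inequality relative to `k`.
-/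

set_option autoImplicit false

namespace Pool.Agent.Results.MP_44a246_nt.CurvesAboveQuadraticPoints

open NumberField IsDedekindDomain Height Polynomial Module

variable (K : Type) [Field K] [NumberField K]

/-- `(x, y)` is a point of degree two over `K` of the curve `y² = x³ + a x + b`, with coordinates
in the field `L` -/
structure IsQuadratic (a b : 𝓞 K) (L : Type) [Field L] [Algebra K L] (x y : L) : Prop where
  equation : y ^ 2 = x ^ 3 + algebraMap K L a * x + algebraMap K L b
  degree : finrank K (IntermediateField.adjoin K {x, y}) = 2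

/-- the logarithmic height of an element of `L`, normalised relative to `K` -/
noncomputable def ht (L : Type) [Field L] [NumberField L] [Algebra K L] (x : L) : ℝ :=
  logHeight₁ x / Module.finrank K L

/-- the points of degree two over `K` of the curve `y² = x³ + a x + b` with `h(x) ≤ X`, as points
with coordinates in the algebraic closure of `K` -/
def points (a b : 𝓞 K) (X : ℝ) : Set (AlgebraicClosure K × AlgebraicClosure K) :=
  {p | ∃ (L : Type) (_ : Field L) (_ : NumberField L) (_ : Algebra K L)
    (ι : L →ₐ[K] AlgebraicClosure K) (x y : L), finrank K L = 2 ∧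
    IsQuadratic K a b L x y ∧ ht K L x ≤ X ∧ p = (ι x, ι y)}

/-- a point of the projective curve `y² = x³ + a x + b`; `none` is the point at infinity -/
def OnCurve {F : Type} [Field F] (a b : F) : Option (F × F) → Prop
  | none => True
  | some q => q.2 ^ 2 = q.1 ^ 3 + a * q.1 + b

/-- `D` is (the support of) a reduced effective divisor over `K` of the projective curve
`y² = x³ + a x + b`, all of whose points have degree at most five over `K` -/
structure IsDivisor (a b : 𝓞 K) (D : Finset (Option (AlgebraicClosure K × AlgebraicClosure K))) :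
    Prop where
  onCurve : ∀ R ∈ D, OnCurve (algebraMap K (AlgebraicClosure K) a)
    (algebraMap K (AlgebraicClosure K) b) R
  stable : ∀ (g : AlgebraicClosure K ≃ₐ[K] AlgebraicClosure K), ∀ R ∈ D,
    R.map (Prod.map g g) ∈ D
  degree : ∀ u t, some (u, t) ∈ D → Module.finrank K (IntermediateField.adjoin K {u, t}) ≤ 5

/-- the affine point `(x, y)` is congruent to a point of the projective curve modulo the prime `w`:
the coordinates are congruent, respectively `x` has a pole at `w` if the point is the point at
infinity -/
def Congruent (M : Type) [Field M] [NumberField M] (w : HeightOneSpectrum (𝓞 M)) (x y : M) :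
    Option (M × M) → Prop
  | none => 1 < w.valuation M x
  | some q => w.valuation M (x - q.1) < 1 ∧ w.valuation M (y - q.2) < 1

/-- the point `(x, y)` with coordinates in `L` meets the divisor `D` at the prime `w` of `L`: it is
congruent to a point of `D` modulo a prime above `w` of a number field `M` -/
def Meets (D : Finset (Option (AlgebraicClosure K × AlgebraicClosure K)))
    (L : Type) [Field L] [NumberField L] [Algebra K L] (x y : L)
    (w : HeightOneSpectrum (𝓞 L)) : Prop :=
  ∃ (M : Type) (_ : Field M) (_ : NumberField M) (_ : Algebra K M) (_ : Algebra L M)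
    (_ : IsScalarTower K L M) (j : M →ₐ[K] AlgebraicClosure K) (w' : HeightOneSpectrum (𝓞 M))
    (R : Option (M × M)), w'.asIdeal.LiesOver w.asIdeal ∧ R.map (Prod.map j j) ∈ D ∧
      Congruent M w' (algebraMap L M x) (algebraMap L M y) R

/-- the real number `c` is at most the truncated counting function `N_S^(1)(D, (x, y))`, which is
normalised relative to `K`: the sum of `log N(w) / [L : K]` over the primes `w` of `L`, not lying
over `S`, at which `(x, y)` meets `D` -/
def LeCounting (S : Finset (HeightOneSpectrum (𝓞 K)))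
    (D : Finset (Option (AlgebraicClosure K × AlgebraicClosure K)))
    (L : Type) [Field L] [NumberField L] [Algebra K L] (x y : L) (c : ℝ) : Prop :=
  ∃ W : Finset (HeightOneSpectrum (𝓞 L)),
    (∀ w ∈ W, (∀ v ∈ S, ¬ w.asIdeal.LiesOver v.asIdeal) ∧ Meets K D L x y w) ∧
    c ≤ (∑ w ∈ W, Real.log (Ideal.absNorm w.asIdeal : ℝ)) / Module.finrank K L

/-- the point `α` of the line has the property that the points of the curve `y² = x³ + a x + b` with
`g(x) = α`, where `g` is a fractional linear transformation, have degree at most five over `K` -/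
def SmallDegree (a b : 𝓞 K) (g : Matrix (Fin 2) (Fin 2) K) (k : Type) [Field k] [Algebra K k]
    (α : k) : Prop :=
  ∀ (ι : k →ₐ[K] AlgebraicClosure K) (u v : AlgebraicClosure K),
    v ^ 2 = u ^ 3 + algebraMap K (AlgebraicClosure K) a * u + algebraMap K (AlgebraicClosure K) b →
    ι α * (algebraMap K (AlgebraicClosure K) (g 1 0) * u +
        algebraMap K (AlgebraicClosure K) (g 1 1)) =
      algebraMap K (AlgebraicClosure K) (g 0 0) * u + algebraMap K (AlgebraicClosure K) (g 0 1) →
    finrank K (IntermediateField.adjoin K {u, v}) ≤ 5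

/-- the logarithmic discriminant of a point with values in the field `L`, relative to `K` -/
noncomputable def logDisc (L : Type) [Field L] [NumberField L] [Algebra K L] : ℝ :=
  Real.log |(discr L : ℝ)| / finrank K L - Real.log |(discr K : ℝ)|

/-- the function `t` on the curve with the ring of functions `A` -/
noncomputable def coord (k A : Type) [Field k] [CommRing A] [Algebra k[X] A] : A :=
  algebraMap k[X] A X

/-- the ideal of the reduced fibre over `c` -/
noncomputable def fibre (k A : Type) [Field k] [CommRing A] [Algebra k A] [Algebra k[X] A]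
    (c : k) : Ideal A :=
  (Ideal.span {coord k A - algebraMap k A c}).radical

/-- `q - (∑_j dim (A / F_j)) / N`, where `N` is the rank of `A` over `k[t]`: the number
`2 + deg (K_C + D) / N` for the curve `C`. -/
noncomputable def degree (k : Type) {A : Type} [Field k] [CommRing A] [Algebra k A]
    [Algebra k[X] A] {q : ℕ} (F : Fin q → Ideal A) : ℝ :=
  q - (∑ j, (finrank k (A ⧸ F j) : ℝ)) / finrank k[X] A

open Classical in
/-- The truncated counting function `N_S^(1)(D, P)`, normalised relative to `K`: the sum of
`log N(w) / [L : K]` over the primes `w` of `L`, not above primes in `S`, at which `P` meets `D`: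
that is, `|t(P)|_w ≤ 1` and for some `j` one has `|t(P) - α_j|_w < 1` and `|y_{j l}(P)|_w < 1` for all
`l`, where `y_{j 1} = … = y_{j u_j} = 0` are the equations of the part of `D` over `α_j`. Every such
prime is counted once. -/
noncomputable def truncated {k A : Type} [Field k] [NumberField k] [CommRing A] [Algebra k A]
    [Algebra k[X] A] {q : ℕ} (S : Finset (HeightOneSpectrum (𝓞 k))) (α : Fin q → k)
    (u : Fin q → ℕ) (y : ∀ j, Fin (u j) → A) {L : Type} [Field L] [NumberField L] [Algebra K L]
    [Algebra k L] (P : A →ₐ[k] L) : ℝ :=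
  (∑ᶠ w : HeightOneSpectrum (𝓞 L),
      if (∀ p ∈ S, w.asIdeal.comap (algebraMap (𝓞 k) (𝓞 L)) ≠ p.asIdeal) ∧
        w.valuation L (P (coord k A)) ≤ 1 ∧
        ∃ j, w.valuation L (P (coord k A) - algebraMap k L (α j)) < 1 ∧
          ∀ l, w.valuation L (P (y j l)) < 1
      then Real.log (Ideal.absNorm w.asIdeal) else 0) / finrank K L

section Aux

/-- a natural number in all primes of a finite set -/
theorem exists_nat {k : Type} [Field k] [NumberField k] (S : Finset (HeightOneSpectrum (𝓞 k))) :
    ∃ b : ℕ, b ≠ 0 ∧ ∀ p ∈ S, (b : 𝓞 k) ∈ p.asIdeal := by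
  classical
  refine ⟨∏ p ∈ S, Ideal.absNorm p.asIdeal, Finset.prod_ne_zero_iff.2 fun p _ h =>
    p.ne_bot (Ideal.absNorm_eq_zero_iff.1 h), ?_⟩
  intro p hp
  have h1 : ((Ideal.absNorm p.asIdeal : ℕ) : 𝓞 k) ∈ p.asIdeal := Ideal.absNorm_mem _
  obtain ⟨c, hc⟩ := Finset.dvd_prod_of_mem (fun p : HeightOneSpectrum (𝓞 k) =>
    Ideal.absNorm p.asIdeal) hp
  rw [hc]
  push_cast
  exact Ideal.mul_mem_right _ _ h1

omit [NumberField K] in
theorem truncated_ge {k A : Type} [Field k] [NumberField k] [CommRing A] [Algebra k A]
    [Algebra k[X] A] {q : ℕ} (S : Finset (HeightOneSpectrum (𝓞 k))) (a : Fin q → k)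
    (u : Fin q → ℕ) (y : ∀ j, Fin (u j) → A) {L : Type} [Field L] [NumberField L] [Algebra K L]
    [Algebra k L]
    (P : A →ₐ[k] L) (b : ℕ) (hb : ∀ p ∈ S, (b : 𝓞 k) ∈ p.asIdeal)
    (hP : ∀ j, P (coord k A) ≠ algebraMap k L (a j)) :
    Pool.Agent.W223.CV.cc {b} (fun v : HeightOneSpectrum (𝓞 L) =>
            v.valuation L (P (coord k A)) ≤ 1 ∧
            ∃ j, v.valuation L (P (coord k A) - algebraMap k L (a j)) < 1 ∧
              ∀ i, v.valuation L (P (y j i)) < 1) / finrank K L ≤ truncated K S a u y P := by
  classical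
  unfold truncated
  refine div_le_div_of_nonneg_right ?_ (Nat.cast_nonneg _)
  have hfin : {v : HeightOneSpectrum (𝓞 L) | v.valuation L (P (coord k A)) ≤ 1 ∧
      ∃ j, v.valuation L (P (coord k A) - algebraMap k L (a j)) < 1 ∧
        ∀ i, v.valuation L (P (y j i)) < 1}.Finite := by
    refine (Set.finite_iUnion fun j =>
      Pool.Agent.W223.AC.val_finite _ (sub_ne_zero.2 (hP j))).subset ?_
    rintro v ⟨-, j, hv, -⟩
    exact Set.mem_iUnion.mpr ⟨j, hv⟩
  unfold Pool.Agent.W223.CV.cc
  refine finsum_le_finsum' (Pool.Agent.W223.CV.ct_support _ hfin) ?_ ?_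
  · refine hfin.subset fun v hv => ?_
    rw [Function.mem_support] at hv
    by_contra hcon
    exact hv (if_neg fun h => hcon h.2)
  · intro v
    by_cases h1 : (∀ p ∈ ({b} : Finset ℕ), (p : 𝓞 L) ∉ v.asIdeal) ∧
        (v.valuation L (P (coord k A)) ≤ 1 ∧
      ∃ j, v.valuation L (P (coord k A) - algebraMap k L (a j)) < 1 ∧
        ∀ i, v.valuation L (P (y j i)) < 1)
    · beta_reduce
      rw [Pool.Agent.W223.CV.ct_pos h1, if_pos]
      refine ⟨?_, h1.2⟩
      intro p hp hv
      apply h1.1 b (Finset.mem_singleton_self b)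
      have h2 := hb p hp
      rw [← hv, Ideal.mem_comap, map_natCast] at h2
      exact h2
    · beta_reduce
      rw [Pool.Agent.W223.CV.ct_neg h1]
      split_ifs
      · exact Real.log_natCast_nonneg _
      · exact le_rfl

end Aux

open Pool.Agent.U47.QE Pool.Agent.U47.QF Pool.Agent.TH942 WeierstrassCurve in
/-- **Vojta's inequality with truncated counting function above 100 percent of the quadratic points
of every elliptic curve over every number field**, with one exceptional set for all number fields,
curves, coordinates, covers, divisors, finite sets of places and all `κ`.  The number of the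
quadratic points with `h(x) ≤ X` is of the order of magnitude `exp (2 X)`. -/
theorem result (a b : 𝓞 K) (hab : 4 * (a : K) ^ 3 + 27 * (b : K) ^ 2 ≠ 0) :
    ∃ Exc : Set (AlgebraicClosure K × AlgebraicClosure K),
      -- the number of the quadratic points
      (∃ c C X₀ : ℝ, 0 < c ∧ ∀ X : ℝ, X₀ ≤ X → (points K a b X).Finite ∧
        c * Real.exp (2 * X) ≤ ((points K a b X).ncard : ℝ) ∧
        ((points K a b X).ncard : ℝ) ≤ C * Real.exp (2 * X)) ∧
      -- the exceptional set has density zero
      (∀ δ : ℝ, 0 < δ → ∃ X₀ : ℝ, ∀ X : ℝ, X₀ ≤ X →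
        ((Exc ∩ points K a b X).ncard : ℝ) ≤ δ * ((points K a b X).ncard : ℝ)) ∧
      -- (I) the points of the elliptic curve and all divisors
      (∀ D : Finset (Option (AlgebraicClosure K × AlgebraicClosure K)), IsDivisor K a b D →
        ∀ (S : Finset (HeightOneSpectrum (𝓞 K))) (ε : ℝ), 0 < ε →
        ∃ C : ℝ, ∀ (L : Type) [Field L] [NumberField L] [Algebra K L]
          (ι : L →ₐ[K] AlgebraicClosure K) (x y : L), finrank K L = 2 →
          IsQuadratic K a b L x y → (ι x, ι y) ∉ Exc →
          LeCounting K S D L x y (((D.card : ℝ) / 2 - ε) * ht K L x - C)) ∧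
      -- (II) for all number fields and all coordinates on the line
      ∀ (k : Type) [Field k] [NumberField k] [Algebra K k] (g : Matrix (Fin 2) (Fin 2) K),
        g.det ≠ 0 →
        -- all branch points
        ∀ (q : ℕ) (α : Fin q → k), 0 < q → Function.Injective α →
        (∀ j, SmallDegree K a b g k (α j)) →
        -- all curves over the line and all divisors
        ∀ (A : Type) [CommRing A] [IsDedekindDomain A] [Algebra k A] [Algebra k[X] A]
          [IsScalarTower k k[X] A] [Module.Finite k[X] A] [FaithfulSMul k[X] A]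
          (u : Fin q → ℕ) (z : ∀ j, Fin (u j) → A) (F : Fin q → Ideal A), (∀ j, F j ≠ ⊥) →
          (∀ j l, ∀ f ∈ F j, z j l * f ∈ fibre k A (α j)) →
        ∀ (S : Finset (HeightOneSpectrum (𝓞 k))) (κ : ℝ), 0 < κ →
        ∃ c : ℝ, ∀ (L : Type) [Field L] [NumberField L] [Algebra K L] [Algebra k L]
          [IsScalarTower K k L] (ι : L →ₐ[K] AlgebraicClosure K) (x y : L),
          IsQuadratic K a b L x y → (ι x, ι y) ∉ Exc →
          algebraMap K L (g 1 0) * x + algebraMap K L (g 1 1) ≠ 0 →
          -- all points `P` of the curve above `g(x)`, with values in any field `L`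
          ∀ P : A →ₐ[k] L,
            P (coord k A) = (algebraMap K L (g 0 0) * x + algebraMap K L (g 0 1)) /
              (algebraMap K L (g 1 0) * x + algebraMap K L (g 1 1)) →
            (∀ j, P (coord k A) ≠ algebraMap k L (α j)) →
            (degree k F - κ) * ht K L (P (coord k A)) ≤
              truncated K S α u z P + logDisc K L + c := by
  classical
  obtain ⟨E₁, hE11, hE2⟩ := final K a b hab
  obtain ⟨E₂, hE21, hE3⟩ := mainT a b hab
  obtain ⟨E, hEd⟩ : ∃ E, E = E₁ ∪ E₂ := ⟨_, rfl⟩
  have hE1 : Ngl (QQ (a : K) (b : K)) E := by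
    rw [hEd]
    exact ngl_union hE11 hE21
  obtain ⟨C, hC, hfin⟩ := qq_fin a b hab (cntU K)
  obtain ⟨c, X₀, hc, hlow⟩ := qq_low a b hab (cntU K) (cntL K)
  let tp : EP (a : K) (b : K) (AlgebraicClosure K) → AlgebraicClosure K × AlgebraicClosure K :=
    fun P => match P with
      | .zero => (0, 0)
      | .some x y _ => (x, y)
  have hD : ∀ F : Type, ∀ [Field F] [Algebra K F],
      4 * (algebraMap K F (a : K)) ^ 3 + 27 * (algebraMap K F (b : K)) ^ 2 ≠ 0 := fun F _ _ =>
    disc_ne hab F
  have hne : ∀ X P, P ∈ QQ (a : K) (b : K) X → ∃ x y h, P = Affine.Point.some x y h := by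
    rintro X P ⟨s, L, _, _, _, ι, σ, P', h1, h2, h3⟩
    match P', h1, h3 with
    | 0, h1, _ =>
      exfalso
      apply h1.ne
      rw [map_zero]
    | .some x y h, _, h3 =>
      rw [← h3, mp_some]
      exact ⟨_, _, _, rfl⟩
  have htp : ∀ X, Set.InjOn tp (QQ (a : K) (b : K) X) := by
    intro X P hP Q hQ h
    obtain ⟨x, y, h1, rfl⟩ := hne X P hP
    obtain ⟨x', y', h2, rfl⟩ := hne X Q hQ
    have h3 : (x, y) = (x', y') := h
    rw [Prod.mk.injEq] at h3
    exact spt_ext h3.1 h3.2
  -- the field of a quadratic point
  have hnr : ∀ (L : Type) [Field L] [Algebra K L] (x y : L), IsQuadratic K a b L x y →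
      ¬ (x ∈ Set.range (algebraMap K L) ∧ y ∈ Set.range (algebraMap K L)) := by
    rintro L _ _ x y hq ⟨⟨x1, hx1⟩, ⟨y1, hy1⟩⟩
    have h1 : IntermediateField.adjoin K {x, y} = ⊥ := by
      rw [IntermediateField.adjoin_eq_bot_iff]
      rintro z hz
      rw [Set.mem_insert_iff, Set.mem_singleton_iff] at hz
      rw [SetLike.mem_coe, IntermediateField.mem_bot]
      rcases hz with rfl | rfl
      · exact ⟨x1, hx1⟩
      · exact ⟨y1, hy1⟩
    have h2 := hq.degree
    rw [h1, IntermediateField.finrank_bot] at h2
    norm_num at h2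
  have hqd : ∀ (L : Type) [Field L] [NumberField L] [Algebra K L] (x y : L), finrank K L = 2 →
      y ^ 2 = x ^ 3 + algebraMap K L a * x + algebraMap K L b →
      ¬ (x ∈ Set.range (algebraMap K L) ∧ y ∈ Set.range (algebraMap K L)) →
      IsQuadratic K a b L x y := by
    intro L _ _ _ x y hL he hr
    refine ⟨he, ?_⟩
    have hf : FiniteDimensional K L := FiniteDimensional.right ℚ K L
    have h1 := finrank_mul_finrank K (IntermediateField.adjoin K {x, y}) L
    rw [hL] at h1
    have h2 : finrank K (IntermediateField.adjoin K {x, y}) ∣ 2 := ⟨_, h1.symm⟩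
    rcases (Nat.dvd_prime Nat.prime_two).1 h2 with h3 | h3
    · exfalso
      apply hr
      rw [IntermediateField.finrank_eq_one_iff, IntermediateField.adjoin_eq_bot_iff] at h3
      exact ⟨IntermediateField.mem_bot.1 (h3 (Set.mem_insert _ _)),
        IntermediateField.mem_bot.1 (h3 (Set.mem_insert_of_mem _ rfl))⟩
    · exact h3
  have hpts : ∀ X, points K a b X = tp '' QQ (a : K) (b : K) (2 * X) := by
    intro X
    ext p
    constructor
    · rintro ⟨L, _, _, _, ι, x, y, hL, hq, hx, rfl⟩
      have hns : (sw (algebraMap K L (a : K)) (algebraMap K L (b : K))).toAffine.Nonsingular x y :=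
        sw_nonsing (hD L) hq.equation
      obtain ⟨σ, hσ⟩ := exists_conj hL
      obtain ⟨s, hs⟩ := exists_trace hab hσ (Affine.Point.some x y hns : EP (a : K) (b : K) L)
      refine ⟨mp (a : K) (b : K) ι (Affine.Point.some x y hns),
        ⟨s, L, _, ‹_›, _, ι, σ, _, ⟨hσ, ?_, hs⟩, ?_, rfl⟩, ?_⟩
      · rw [mp_some]
        intro h1
        rw [Affine.Point.some.injEq] at h1
        exact hnr L x y hq ⟨(hσ.fix x).1 h1.1, (hσ.fix y).1 h1.2⟩
      · rw [Pool.Agent.U47.QE.sht_some]
        have h1 : logHeight₁ x / (finrank K L : ℝ) ≤ X := hx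
        rw [hL] at h1
        push_cast at h1
        linarith
      · rw [mp_some]
    · rintro ⟨P, ⟨s, L, _, _, _, ι, σ, P', h1, h2, h3⟩, rfl⟩
      match P', h1, h2, h3 with
      | 0, h1, _, _ =>
        exfalso
        apply h1.ne
        rw [map_zero]
      | .some x y h, h1, h2, h3 =>
        refine ⟨L, _, ‹_›, _, ι, x, y, h1.cj.deg, hqd L x y h1.cj.deg (eqL h) ?_, ?_, ?_⟩
        · rintro ⟨hx, hy⟩
          apply h1.ne
          rw [mp_some]
          exact spt_ext ((h1.cj.fix x).2 hx) ((h1.cj.fix y).2 hy)
        · rw [Pool.Agent.U47.QE.sht_some] at h2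
          change logHeight₁ x / (finrank K L : ℝ) ≤ X
          rw [h1.cj.deg]
          push_cast
          linarith
        · rw [← h3, mp_some]
  have hcard : ∀ X, (points K a b X).ncard = (QQ (a : K) (b : K) (2 * X)).ncard := by
    intro X
    rw [hpts, (htp _).ncard_image]
  refine ⟨{q | ∃ h, (Affine.Point.some q.1 q.2 h : EP (a : K) (b : K) (AlgebraicClosure K)) ∈ E},
    ⟨c, C, X₀ / 2, hc, fun X hX => ⟨?_, ?_, ?_⟩⟩, ?_, ?_, ?_⟩
  · rw [hpts]
    exact (hfin _).1.image _
  · rw [hcard]
    exact hlow _ (by linarith)
  · rw [hcard]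
    exact (hfin _).2
  · intro δ hδ
    obtain ⟨X₁, hX₁⟩ := hE1 (δ * c) (by positivity)
    refine ⟨max (X₀ / 2) (X₁ / 2), fun X hX => ?_⟩
    have h1 := hX₁ (2 * X) (by
      have := (le_max_right _ _).trans hX
      linarith)
    have h2 := hlow (2 * X) (by
      have := (le_max_left _ _).trans hX
      linarith)
    have h3 : ({q | ∃ h, (Affine.Point.some q.1 q.2 h : EP (a : K) (b : K) (AlgebraicClosure K)) ∈ E}
        ∩ points K a b X).ncard ≤ (E ∩ QQ (a : K) (b : K) (2 * X)).ncard := by
      rw [← ((htp (2 * X)).mono Set.inter_subset_right).ncard_image]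
      refine Set.ncard_le_ncard ?_ (((hfin _).1.subset Set.inter_subset_right).image _)
      rintro q ⟨⟨h, hq⟩, hq2⟩
      rw [hpts] at hq2
      obtain ⟨P, hP, hPq⟩ := hq2
      obtain ⟨x, y, h', rfl⟩ := hne _ P hP
      have h4 : (x, y) = q := hPq
      subst h4
      exact ⟨_, ⟨hq, hP⟩, rfl⟩
    have h4 : (({q | ∃ h, (Affine.Point.some q.1 q.2 h : EP (a : K) (b : K) (AlgebraicClosure K))
        ∈ E} ∩ points K a b X).ncard : ℝ) ≤ ((E ∩ QQ (a : K) (b : K) (2 * X)).ncard : ℝ) := by
      exact_mod_cast h3
    rw [hcard]
    have h5 := mul_le_mul_of_nonneg_left h2 hδ.le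
    linarith
  · intro D hDv S ε hε
    obtain ⟨X, hX⟩ := hE2 D ⟨fun R hR => by
      have := hDv.onCurve R hR
      match R, this with
      | none, _ => trivial
      | some _, h => exact h, hDv.degree⟩ ε hε
    obtain ⟨CS, hCS⟩ : ∃ CS : ℝ, CS = ∑ v ∈ S, Real.log (Ideal.absNorm v.asIdeal : ℝ) := ⟨_, rfl⟩
    have hCS0 : 0 ≤ CS := by
      rw [hCS]
      exact Finset.sum_nonneg fun v _ => Real.log_natCast_nonneg _
    refine ⟨CS + (D.card : ℝ) / 2 * |X|, ?_⟩
    intro L _ _ _ ι x y hdeg hq hexc
    have hht : ht K L x = logHeight₁ x / 2 := by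
      rw [ht, hdeg]
      norm_num
    have h0 := zero_le_logHeight₁ x
    have hcard0 : (0 : ℝ) ≤ D.card := Nat.cast_nonneg _
    rcases le_or_gt (logHeight₁ x) X with hle | hgt
    · refine ⟨∅, fun w hw => absurd hw (Finset.notMem_empty w), ?_⟩
      rw [Finset.sum_empty, zero_div, hht]
      have h1 := le_abs_self X
      have h2 : (D.card : ℝ) / 2 * (logHeight₁ x / 2) ≤ (D.card : ℝ) / 2 * |X| :=
        mul_le_mul_of_nonneg_left (by linarith) (by positivity)
      nlinarith
    · have hns : (sw (algebraMap K L (a : K)) (algebraMap K L (b : K))).toAffine.Nonsingular x y :=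
        sw_nonsing (hD L) hq.equation
      obtain ⟨W, hW1, hW2⟩ := hX L ι x y hns hdeg (hnr L x y hq) (by
        rw [mp_some]
        intro h
        exact hexc ⟨_, by rw [hEd]; exact Or.inl h⟩) hgt
      refine ⟨W.filter fun w => ∀ v ∈ S, ¬ w.asIdeal.LiesOver v.asIdeal, fun w hw => ?_, ?_⟩
      · rw [Finset.mem_filter] at hw
        refine ⟨hw.2, ?_⟩
        obtain ⟨M, i1, i2, i3, i4, i5, j, w', R, h1, h2, h3⟩ := hW1 w hw.1
        refine ⟨M, i1, i2, i3, i4, i5, j, w', R, h1, h2, ?_⟩
        match R, h3 with
        | none, h3 => exact h3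
        | some _, h3 => exact h3
      · have hsplit := Finset.sum_filter_add_sum_filter_not W
          (fun w => ∀ v ∈ S, ¬ w.asIdeal.LiesOver v.asIdeal)
          (fun w => Real.log (Ideal.absNorm w.asIdeal : ℝ))
        have hbad : ∑ w ∈ W.filter (fun w => ¬ ∀ v ∈ S, ¬ w.asIdeal.LiesOver v.asIdeal),
            Real.log (Ideal.absNorm w.asIdeal : ℝ) ≤ 2 * CS := by
          have hsub : W.filter (fun w => ¬ ∀ v ∈ S, ¬ w.asIdeal.LiesOver v.asIdeal) ⊆
              S.biUnion fun v => W.filter fun w => w.asIdeal.LiesOver v.asIdeal := by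
            intro w hw
            rw [Finset.mem_filter] at hw
            push Not at hw
            obtain ⟨hw1, v, hv, hw2⟩ := hw
            rw [Finset.mem_biUnion]
            exact ⟨v, hv, Finset.mem_filter.2 ⟨hw1, hw2⟩⟩
          refine (Finset.sum_le_sum_of_subset_of_nonneg hsub
            fun w _ _ => Real.log_natCast_nonneg _).trans ?_
          refine (sum_biUnion_le' S (fun v => W.filter fun w => w.asIdeal.LiesOver v.asIdeal)
            (fun w => Real.log (Ideal.absNorm w.asIdeal : ℝ))
            (fun w => Real.log_natCast_nonneg _)).trans ?_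
          rw [hCS, Finset.mul_sum]
          refine Finset.sum_le_sum fun v _ => ?_
          have h1 := sum_above (F := K) (M := L) v
            (W.filter fun w => w.asIdeal.LiesOver v.asIdeal)
            (fun w hw => (Finset.mem_filter.1 hw).2)
          rw [hdeg] at h1
          exact_mod_cast h1
        rw [hht, hdeg]
        push_cast
        rw [le_div_iff₀ two_pos]
        have h1 : 0 ≤ (D.card : ℝ) / 2 * |X| := by positivity
        linarith
  · intro k _ _ _ g hg q α hq hα hsml A _ _ _ _ _ _ _ u z F hF hzF S κ hκ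
    obtain ⟨b₀, hb0, hb⟩ := exists_nat S
    obtain ⟨c', hc'⟩ := hE3 k ![g 0 0, g 0 1, g 1 0, g 1 1] (by
      rw [Matrix.det_fin_two] at hg
      exact hg) q α hq hα (fun ι j => hsml j ι) A u z F hF hzF {b₀}
      (fun p hp => by rw [Finset.mem_singleton] at hp; rw [hp]; exact hb0) κ hκ
    refine ⟨finrank ℚ K * c' + Real.log |(discr K : ℝ)|, ?_⟩
    intro L _ _ _ _ _ ι x y hQ hexc hden P hP hPα
    have hns : (sw (algebraMap K L (a : K)) (algebraMap K L (b : K))).toAffine.Nonsingular x y :=
      sw_nonsing (hD L) hQ.equation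
    have hfd : FiniteDimensional K L := FiniteDimensional.right ℚ K L
    have h1 := hc' L P ι x y hns hQ.degree (by
      rw [mp_some]
      intro h
      exact hexc ⟨_, by rw [hEd]; exact Or.inr h⟩) hden (by
      change P (coord k A) * (algebraMap K L (g 1 0) * x + algebraMap K L (g 1 1)) =
        algebraMap K L (g 0 0) * x + algebraMap K L (g 0 1)
      rw [hP, div_mul_cancel₀ _ hden])
    have htr := truncated_ge K S α u z P b₀ hb hPα
    have h2 : (finrank ℚ L : ℝ) = finrank ℚ K * finrank K L := by
      rw [← Nat.cast_mul, finrank_mul_finrank]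
    have h3 : (0 : ℝ) < finrank K L := by
      have : 0 < finrank K L := finrank_pos
      exact_mod_cast this
    rw [h2] at h1
    obtain ⟨N, hN⟩ : ∃ N : ℝ, N = Pool.Agent.W223.CV.cc {b₀} (fun v : HeightOneSpectrum (𝓞 L) =>
            v.valuation L (P (coord k A)) ≤ 1 ∧
            ∃ j, v.valuation L (P (coord k A) - algebraMap k L (α j)) < 1 ∧
              ∀ i, v.valuation L (P (z j i)) < 1) := ⟨_, rfl⟩
    rw [← hN] at htr
    have h1' : (degree k F - κ) * logHeight₁ (P (coord k A)) ≤
        N + Real.log |(discr L : ℝ)| + finrank ℚ K * finrank K L * c' := by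
      rw [hN]
      exact h1
    have h4 : ((degree k F - κ) * logHeight₁ (P (coord k A))) / finrank K L ≤
        (N + Real.log |(discr L : ℝ)| + finrank ℚ K * finrank K L * c') / finrank K L :=
      div_le_div_of_nonneg_right h1' h3.le
    have h5 : (N + Real.log |(discr L : ℝ)| + finrank ℚ K * finrank K L * c') / finrank K L =
        N / finrank K L + Real.log |(discr L : ℝ)| / finrank K L + finrank ℚ K * c' := by
      field_simp
    rw [h5] at h4
    rw [ht, logDisc, ← mul_div_assoc]
    linarith

end Pool.Agent.Results.MP_44a246_nt.CurvesAboveQuadraticPoints
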