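import Pool.Agent.U663.CF.Typ

/-!
MP_44a246_nt, Q1: where the defect of the exceptional points comes from, for `n ≥ 4` hyperplanes in
general position in projective space of dimension `n - 2`.

Let `V` be the hyperplane `Z_1 + ... + Z_n = 0` in `P^(n-1)`, `D` the divisor `Z_1 ⋯ Z_n = 0` on `V`
(`n` hyperplanes in general position), and `S` the infinite place of `ℚ`. A rational point `P` of `V`
outside `D` is given by primitive integral coordinates `x` (unique up to sign). With
`h(P) = log max |x_i|`, the counting function `N(D, P) = log |x_1 ⋯ x_n|`, the truncated counting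
function `N1(P)` (the sum of `log p` over the primes `p` that divide a coordinate), and the
proximities `m_i(P) = h(P) - log |x_i|` at the infinite place,

  `n h(P) = N1(P) + ∑ m_i(P) + ∑ e_I(P)`,

where `e_I(P)` is the part of `N(D, P) - N1(P)` that comes from the primes `p` modulo which `P` lies
on the hyperplanes `Z_i = 0` with `i ∈ I` and on no others; `I` has at most `n - 2` elements, and for
`n - 2` elements the stratum is one of the `binomial(n, 2)` points which lie on `n - 2` of the `n`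
hyperplanes.

Truncated counting inequalities `n h(P) ≤ N1(P) + κ h(P)` (the conjecture is the case `κ > n - 1`,
outside a closed subset) fail for all sufficiently large `X` for some points with `h(P) ≤ log X` if
`κ` is smaller. For `0 < κ < 1/3` the theorem describes the points of `V` for which
`n h(P) > N1(P) + κ h(P)`: up to a proportion `exp (- η (log X / log log X) ^ ((n-2)/(n-1)))`,
their defect is `(κ + o(1)) h(P)`, nothing comes from the infinite place or from reductions to strata of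
positive dimension, and each of the `binomial(n, 2)` zero-dimensional strata of `D` contributes the
same amount, `(κ / binomial(n, 2) + o(1)) h(P)`.
-/

set_option autoImplicit false

namespace Pool.Agent.Results.MP_44a246_nt.DeepestStrata

open Finset Filter Topology

/-- `x` is a tuple of primitive integral coordinates of a rational point of the hyperplane
`Z_1 + ... + Z_n = 0` outside the divisor `Z_1 ⋯ Z_n = 0`. -/
def IsPoint {n : ℕ} (x : Fin n → ℤ) : Prop :=
  ∑ i, x i = 0 ∧ (∀ i, x i ≠ 0) ∧ univ.gcd x = 1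

/-- the height `log max |x_i|` -/
noncomputable def height {n : ℕ} (x : Fin n → ℤ) : ℝ :=
  Real.log ((univ.sup fun i => (x i).natAbs : ℕ) : ℝ)

/-- the truncated counting function of `Z_1 ⋯ Z_n = 0` -/
noncomputable def truncated {n : ℕ} (x : Fin n → ℤ) : ℝ :=
  ∑ p ∈ (∏ i, x i).natAbs.primeFactors, Real.log p

/-- the proximity to the hyperplane `Z_i = 0` at the infinite place -/
noncomputable def proximity {n : ℕ} (x : Fin n → ℤ) (i : Fin n) : ℝ :=
  height x - Real.log |(x i : ℝ)|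

/-- the part of the difference of the counting function and the truncated counting function which
comes from the primes modulo which the point lies on the hyperplanes `Z_i = 0` with `i ∈ I` and on no
others -/
noncomputable def excess {n : ℕ} (x : Fin n → ℤ) (I : Finset (Fin n)) : ℝ :=
  ∑ p ∈ (∏ i, x i).natAbs.primeFactors.filter (fun p : ℕ => ∀ i, (p : ℤ) ∣ x i ↔ i ∈ I),
    (((∏ i, x i).natAbs.factorization p : ℝ) - 1) * Real.log p

/-- the points with `h(P) ≤ log X` and `n h(P) > N1(P) + κ h(P)` -/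
def Exceptions (n : ℕ) (κ X : ℝ) : Set (Fin n → ℤ) :=
  {x | IsPoint x ∧ height x ≤ Real.log X ∧ truncated x + κ * height x < n * height x}

/-- the points with equal contributions of the zero-dimensional strata, up to `ε h(P)` -/
def Typical {n : ℕ} (κ ε : ℝ) (x : Fin n → ℤ) : Prop :=
  (∀ I : Finset (Fin n), I.Nonempty → I ≠ univ → ∑ i ∈ I, x i ≠ 0) ∧
  (∀ i, proximity x i ≤ ε * height x) ∧
  |n * height x - truncated x - κ * height x| ≤ ε * height x ∧
  (∀ I : Finset (Fin n), I.card = n - 2 →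
    |excess x I - κ / (n.choose 2 : ℕ) * height x| ≤ ε * height x) ∧
  ∀ I : Finset (Fin n), I.card < n - 2 → excess x I ≤ ε * height x

theorem pr_eq {n : ℕ} (x : Fin n → ℤ) :
    Pool.Agent.N906.NT.pr (Pool.Agent.N906.NT.ab x) = (∏ i, x i).natAbs := by
  unfold Pool.Agent.N906.NT.pr Pool.Agent.N906.NT.ab
  rw [← Int.natAbsHom_apply, map_prod]
  rfl

theorem truncated_eq {n : ℕ} (x : Fin n → ℤ) :
    truncated x = Real.log (Pool.Agent.N906.NT.rr (Pool.Agent.N906.NT.ab x)) := by
  unfold truncated Pool.Agent.N906.NT.rr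
  rw [pr_eq, Nat.cast_prod, Real.log_prod]
  intro p hp
  exact_mod_cast (Nat.prime_of_mem_primeFactors hp).ne_zero

theorem excess_eq {n : ℕ} (x : Fin n → ℤ) (I : Finset (Fin n)) :
    excess x I = Pool.Agent.U663.CF.gs (Pool.Agent.N906.NT.ab x) I := by
  unfold excess Pool.Agent.U663.CF.gs
  rw [pr_eq]
  refine Finset.sum_congr ?_ fun _ _ => rfl
  ext p
  rw [mem_filter, mem_filter]
  refine and_congr_right fun _ => ?_
  unfold Pool.Agent.U663.CF.fp Pool.Agent.N906.NT.ab
  constructor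
  · intro h
    ext i
    rw [mem_filter, ← h i, Int.natCast_dvd]
    exact ⟨fun h => h.2, fun h => ⟨mem_univ _, h⟩⟩
  · intro h i
    rw [← h, mem_filter, Int.natCast_dvd]
    exact ⟨fun h => ⟨mem_univ _, h⟩, fun h => h.2⟩

theorem height_eq {n : ℕ} (x : Fin n → ℤ) : height x = Real.log (Pool.Agent.N906.NT.Ht x) := rfl

theorem adm1 {n : ℕ} (hn : 4 ≤ n) (x : Fin n → ℤ) (hx : IsPoint x) :
    ∑ i, x i = 0 ∧ (∀ i, x i ≠ 0) ∧
      Pool.Agent.N906.NT.Tp (Pool.Agent.N906.NT.Dl n (n - 2)) (Pool.Agent.N906.NT.ab x) := by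
  classical
  refine ⟨hx.1, hx.2.1, fun i => Nat.one_le_iff_ne_zero.2
    (Int.natAbs_ne_zero.2 (hx.2.1 i)), fun p hp => ?_⟩
  unfold Pool.Agent.N906.NT.Dl
  rw [mem_filter]
  refine ⟨mem_univ _, ?_⟩
  by_contra hcon
  push Not at hcon
  obtain ⟨U, hU⟩ : ∃ U : Finset (Fin n), U = univ.filter fun i =>
    ¬ p ∣ Pool.Agent.N906.NT.ab x i := ⟨_, rfl⟩
  have h1 : U.card ≤ 1 := by
    have h2 := Finset.card_filter_add_card_filter_not (s := (univ : Finset (Fin n)))
      (fun i => p ∣ Pool.Agent.N906.NT.ab x i)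
    rw [card_univ, Fintype.card_fin, ← hU] at h2
    omega
  have hall : ∀ i, (p : ℤ) ∣ x i := by
    intro i
    by_contra hi
    have hiU : i ∈ U := by
      rw [hU, mem_filter]
      exact ⟨mem_univ _, fun h => hi (Int.natCast_dvd.2 h)⟩
    have h3 : ∀ j ∈ univ.erase i, (p : ℤ) ∣ x j := by
      intro j hj
      by_contra hj'
      have hjU : j ∈ U := by
        rw [hU, mem_filter]
        exact ⟨mem_univ _, fun h => hj' (Int.natCast_dvd.2 h)⟩
      exact ne_of_mem_erase hj (card_le_one.1 h1 j hjU i hiU)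
    have h4 : x i = -∑ j ∈ univ.erase i, x j := by
      have := Finset.add_sum_erase univ x (mem_univ i)
      rw [hx.1] at this
      linarith
    apply hi
    rw [h4]
    exact (Finset.dvd_sum h3).neg_right
  have h5 : (p : ℤ) ∣ univ.gcd x := Finset.dvd_gcd fun i _ => hall i
  rw [hx.2.2] at h5
  have h6 : (p : ℕ) ∣ 1 := by
    have := Int.natCast_dvd.1 h5
    simpa using this
  exact hp.one_lt.ne' (Nat.dvd_one.1 h6)

theorem adm2 {n : ℕ} (hn : 4 ≤ n) (x : Fin n → ℤ) (h1 : ∑ i, x i = 0) (h2 : ∀ i, x i ≠ 0)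
    (_h3 : Pool.Agent.N906.NT.NV x)
    (h4 : Pool.Agent.N906.NT.Tp (Pool.Agent.N906.NT.Dl n (n - 2)) (Pool.Agent.N906.NT.ab x)) :
    IsPoint x := by
  classical
  refine ⟨h1, h2, ?_⟩
  have h6 : IsUnit (univ.gcd x) := by
    rw [Int.isUnit_iff_natAbs_eq]
    by_contra hne
    obtain ⟨p, hp, hpd⟩ := Nat.exists_prime_and_dvd hne
    have h5 := h4.2 p hp
    unfold Pool.Agent.N906.NT.Dl at h5
    rw [mem_filter] at h5
    have h7 : (univ.filter fun i => p ∣ Pool.Agent.N906.NT.ab x i) = univ := by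
      ext i
      rw [mem_filter]
      refine ⟨fun h => h.1, fun h => ⟨h, ?_⟩⟩
      have h8 : univ.gcd x ∣ x i := Finset.gcd_dvd (mem_univ i)
      exact hpd.trans (Int.natAbs_dvd_natAbs.2 h8)
    rw [h7, card_univ, Fintype.card_fin] at h5
    omega
  have h7 : normalize (univ.gcd x) = univ.gcd x := Finset.normalize_gcd
  rw [← h7]
  exact normalize_eq_one.2 h6

theorem height_nonneg {n : ℕ} (hn : 4 ≤ n) {x : Fin n → ℤ} (hx : ∀ i, x i ≠ 0) :
    (1 : ℝ) ≤ Pool.Agent.N906.NT.Ht x := by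
  have h4 := Pool.Agent.N906.NT.le_Ht x ⟨0, by omega⟩
  have h5 : (1 : ℝ) ≤ |(x ⟨0, by omega⟩ : ℝ)| := by
    have := Int.one_le_abs (hx ⟨0, by omega⟩)
    exact_mod_cast this
  linarith

theorem exc_eq {n : ℕ} (hn : 4 ≤ n) {κ X : ℝ} (hκ : κ < 1 / 3) (hX : 0 < X) :
    Exceptions n κ X = Pool.Agent.N906.NT.VV (IsPoint (n := n)) (1 / ((n : ℝ) - κ)) X := by
  ext x
  unfold Exceptions Pool.Agent.N906.NT.VV
  rw [Set.mem_ofPred_eq, Set.mem_ofPred_eq]
  refine and_congr_right fun hx => ?_
  have hHt1 := height_nonneg hn hx.2.1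
  have hHt0 : (0 : ℝ) < Pool.Agent.N906.NT.Ht x := by linarith
  have hR : (0 : ℝ) < Pool.Agent.N906.NT.rr (Pool.Agent.N906.NT.ab x) := by
    exact_mod_cast Pool.Agent.N906.NT.rr_pos _
  have hn4 : (4 : ℝ) ≤ n := by exact_mod_cast hn
  have hnκ : 0 < (n : ℝ) - κ := by linarith
  rw [truncated_eq, height_eq]
  refine and_congr (Real.log_le_log_iff hHt0 hX) ?_
  rw [← Real.log_lt_log_iff (by positivity) hHt0, Real.log_rpow hR, one_div_mul_eq_div,
    div_lt_iff₀ hnκ]
  constructor <;> intro h <;> linarith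

theorem typ_of {n : ℕ} (hn : 4 ≤ n) {κ ε : ℝ} {x : Fin n → ℤ}
    (h : Pool.Agent.U663.CF.Gd κ (n - 2) ε x) : Typical κ ε x := by
  obtain ⟨h1, h2, h3, h4, h5⟩ := h
  refine ⟨h1, fun i => ?_, ?_, fun I hI => ?_, fun I hI => ?_⟩
  · unfold proximity
    rw [height_eq]
    have := h2 i
    linarith
  · rw [truncated_eq, height_eq]
    exact h3
  · rw [excess_eq, height_eq]
    have h6 := h4 I hI
    rw [Nat.choose_symm (by omega : 2 ≤ n)] at h6
    exact h6
  · rw [excess_eq, height_eq]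
    exact h5 I hI

/-- **Theorem.** Let `n ≥ 4`. (1) For every point the defect `n h(P) - N1(P)` is the sum of the
proximities `m_i(P) ≥ 0` and of the contributions `e_I(P) ≥ 0` of the strata of `D`; `e_I(P) = 0` if
`I` is empty or has more than `n - 2` elements. (2) Let `0 < κ < 1/3`. For large `X` the set of the
points with `h(P) ≤ log X` and `n h(P) > N1(P) + κ h(P)` is finite and not empty, and for all of its
points, except for a proportion `exp (- η (log X / log log X) ^ ((n-2)/(n-1)))` of them, the point is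
not on a hyperplane `∑_{i ∈ I} Z_i = 0`, the defect is `(κ ± ε) h(P)`, all the `m_i(P)` and the
contributions of the strata of positive dimension are at most `ε h(P)`, and each of the
`binomial(n, 2)` zero-dimensional strata contributes `(κ / binomial(n, 2) ± ε) h(P)`. -/
theorem result : ∀ n : ℕ, 4 ≤ n →
    (∀ x : Fin n → ℤ, IsPoint x →
      n * height x = truncated x + ∑ i, proximity x i + ∑ I, excess x I ∧
      (∀ i, 0 ≤ proximity x i) ∧ (∀ I, 0 ≤ excess x I) ∧
      ∀ I : Finset (Fin n), I.card = 0 ∨ n - 2 < I.card → excess x I = 0) ∧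
    ∀ κ : ℝ, 0 < κ → κ < 1 / 3 → ∀ ε : ℝ, 0 < ε → ∃ η : ℝ, 0 < η ∧ ∀ᶠ X : ℝ in atTop,
      (Exceptions n κ X).Finite ∧ (Exceptions n κ X).Nonempty ∧
      ({x | x ∈ Exceptions n κ X ∧ ¬ Typical κ ε x}.ncard : ℝ) ≤
        Real.exp (-(η * (Real.log X / Real.log (Real.log X)) ^
          (((n : ℝ) - 2) / ((n : ℝ) - 1)))) * ((Exceptions n κ X).ncard : ℝ) := by
  classical
  intro n hn
  have hn4 : (4 : ℝ) ≤ n := by exact_mod_cast hn
  refine ⟨fun x hx => ⟨?_, fun i => ?_, fun I => ?_, fun I hI => ?_⟩,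
    fun κ hκ0 hκ1 ε hε => ?_⟩
  · have hab0 : ∀ i, Pool.Agent.N906.NT.ab x i ≠ 0 := fun i => Int.natAbs_ne_zero.2 (hx.2.1 i)
    have hpr : ((Pool.Agent.N906.NT.pr (Pool.Agent.N906.NT.ab x) : ℕ) : ℝ) ≠ 0 := by
      exact_mod_cast Finset.prod_ne_zero_iff.2 fun i _ => hab0 i
    have hrr : ((Pool.Agent.N906.NT.rr (Pool.Agent.N906.NT.ab x) : ℕ) : ℝ) ≠ 0 := by
      exact_mod_cast (Pool.Agent.N906.NT.rr_pos (Pool.Agent.N906.NT.ab x)).ne'
    have h1 := Pool.Agent.U663.CF.sum_gs hab0
    unfold Pool.Agent.N906.NT.gn at h1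
    rw [Real.log_div hpr hrr, Pool.Agent.N130.NT.pr_ab, Real.log_prod, ← truncated_eq] at h1
    · unfold proximity
      rw [Finset.sum_sub_distrib, Finset.sum_const, card_univ, Fintype.card_fin, nsmul_eq_mul,
        Finset.sum_congr rfl fun I _ => excess_eq x I, h1]
      ring
    · intro i _
      have : (x i : ℝ) ≠ 0 := by exact_mod_cast hx.2.1 i
      positivity
  · unfold proximity
    rw [height_eq, sub_nonneg]
    apply Real.log_le_log _ (Pool.Agent.N906.NT.le_Ht x i)
    have : (x i : ℝ) ≠ 0 := by exact_mod_cast hx.2.1 i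
    positivity
  · rw [excess_eq]
    exact Pool.Agent.U663.CF.gs_nonneg (fun i => Int.natAbs_ne_zero.2 (hx.2.1 i)) I
  · rw [excess_eq]
    rcases hI with hI | hI
    · rw [Finset.card_eq_zero.1 hI]
      exact Pool.Agent.U663.CF.gs_empty fun i => Int.natAbs_ne_zero.2 (hx.2.1 i)
    · apply Pool.Agent.U663.CF.gs_not (adm1 hn x hx).2.2
      unfold Pool.Agent.N906.NT.Dl
      rw [mem_filter]
      push Not
      exact fun _ => hI
  · obtain ⟨η, hη, h⟩ := Pool.Agent.U663.CF.typical (n := n) (r := n - 2) (by omega) (by omega)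
      hκ0 hκ1 (IsPoint (n := n)) (adm1 hn) (adm2 hn) hε
    have hρ : ((n - 2 : ℕ) : ℝ) / (((n - 2 : ℕ) : ℝ) + 1) = ((n : ℝ) - 2) / ((n : ℝ) - 1) := by
      rw [Nat.cast_sub (by omega)]
      push_cast
      congr 1
      ring
    have hM0 : 0 < 1 / ((n : ℝ) - κ) := by
      have : 0 < (n : ℝ) - κ := by linarith
      positivity
    have hκM : κ = n - 1 / (1 / ((n : ℝ) - κ)) := by rw [one_div_one_div]; ring
    have hlow := Pool.Agent.N906.NT.lower Pool.Agent.N906.NT.lo_all (n := n) (r := n - 2) (by omega)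
      (by omega) hM0 hκM hκ0 hκ1 (IsPoint (n := n)) (adm2 hn) 1 one_pos
    refine ⟨η, hη, ?_⟩
    filter_upwards [Real.tendsto_log_atTop.eventually h, Real.tendsto_log_atTop.eventually hlow,
      eventually_gt_atTop (0 : ℝ)] with X h1 h2 hX0
    rw [Real.exp_log hX0, hρ] at h1
    rw [Real.exp_log hX0] at h2
    rw [exc_eq hn hκ1 hX0]
    refine ⟨Pool.Agent.N906.NT.VV_fin _ _ _, ?_, ?_⟩
    · have h3 := (Real.exp_pos _).trans_le h2
      have h4 : 0 < (Pool.Agent.N906.NT.VV (IsPoint (n := n)) (1 / ((n : ℝ) - κ)) X).ncard := by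
        exact_mod_cast h3
      exact Set.nonempty_of_ncard_ne_zero h4.ne'
    · unfold Pool.Agent.N906.NT.Gs at h1
      refine le_trans ?_ h1
      have h5 : {x | x ∈ Pool.Agent.N906.NT.VV (IsPoint (n := n)) (1 / ((n : ℝ) - κ)) X ∧
          ¬ Typical κ ε x} ⊆ {x | x ∈ Pool.Agent.N906.NT.VV (IsPoint (n := n))
            (1 / ((n : ℝ) - κ)) X ∧ ¬ Pool.Agent.U663.CF.Gd κ (n - 2) ε x} :=
        fun x hx => ⟨hx.1, fun hG => hx.2 (typ_of hn hG)⟩
      exact_mod_cast Set.ncard_le_ncard h5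
        ((Pool.Agent.N906.NT.VV_fin _ _ _).subset fun x hx => hx.1)

end Pool.Agent.Results.MP_44a246_nt.DeepestStrata
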