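import Pool.Agent.U587.FD.OrbIncl

/-!
# The truncated inequality with discriminant term over ALL extensions `L` of the fields of definition
# of the points of degree `r`, for orbifold points: one power-saving exceptional set

Let `k` be a number field, `D = H_1 + … + H_q` a divisor of `q ≥ m + 1` hyperplanes in general
position in `ℙ^m` over `k`, `r ≥ 2` and `n = r [k : ℚ]`. For a point `x` of degree `r` over `k`
(the field of definition `k(x)` has degree `r`), off `D`, we consider all number fields `L ⊇ k(x)`, of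
unbounded degree, all finite sets `T` of primes of `L`, all sets `J` of indices and all multiplicities
`e_i ≥ 1` (`i ∉ J`) such that at all primes `w ∉ T` of `L` the intersection number of `x` and `H_i`
(`i ∉ J`) is zero or at least `e_i`. (These are the orbifold, or Campana, points over `L`; for `L = k(x)`
and `J` the set of all indices it is no condition. If `π : X → ℙ^m` is a covering which is étale
outside `D`, and ramified of orders divisible by `e_i` everywhere above `H_i`, `i ∉ J`, then all the points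
`P ∈ X(L)` above `x` give such points `x` over `L`, where `T` contains the bad primes.) We prove that for
`0 ≤ θ < q` all but `O(B ^ (n α θ + δ))` of the points `x` of degree `r` and height at most `log B`
satisfy, for all these `L`, `T`, `J`, `e`,

  `(θ - ∑_{i ∉ J} 1 / e_i) h(x) + ∑_{i ∉ J} m_T(H_i, x) / e_i ≤
      N_{L,T}^{(1)}(D_J, x) + ∑_{w ∈ T} log N(w) / [L : ℚ] + d(L) + c`,

where `D_J = ∑_{i ∈ J} H_i`, `N_{L,T}^{(1)}` is the truncated counting function over `L`, `m_T` the
proximity function and `d(L) = log |disc L| / [L : ℚ]`. For `θ = q - m - 1 - ε` this is the inequality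
`h_{K + D}(P) ≤ N^{(1)}(D, P) + ε h(P) + d(P) + O(1)` of the conjecture for the orbifold pair
`(ℙ^m, D_J + ∑_{i ∉ J} (1 - 1 / e_i) H_i)`. As there are at least `c₁ B ^ (n (m + 1) - δ)` points of degree
`r` and height at most `log B`, it holds for almost all of them if `α θ < m + 1`; for `k = ℚ`,
`q = m + 2` this is so for all `r ≤ 2 m + 1`.

Proof. By the inequality of the starting file `N752/Shelf/BoundedDegreeHyperplanes` (the case
`L = k(x)`, `J` all indices) it is enough to compare the truncated counting functions over `k(x)` and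
over `L`: the different of `L` over `k(x)` at a prime with ramification index `e` has exponent at least
`e - 1`, and the bad primes and the heights of the hyperplanes contribute a constant which does
not depend on the fields.
-/

set_option autoImplicit false

namespace Pool.Agent.Results.MP_44a246_nt.OrbifoldPointsDegreeR

open NumberField IsDedekindDomain
open scoped LinearAlgebra.Projectivization

/-- The absolute logarithmic height of the point with homogeneous coordinates `x`. -/
noncomputable def height {L : Type} [Field L] [NumberField L] {m : ℕ} (x : Fin (m + 1) → L) : ℝ :=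
  Height.logHeight x / Module.finrank ℚ L

/-- The absolute logarithmic discriminant `log |disc L| / [L : ℚ]`. -/
noncomputable def logDisc (L : Type) [Field L] [NumberField L] : ℝ :=
  Real.log |(NumberField.discr L : ℝ)| / Module.finrank ℚ L

/-- `log N(w)`. -/
noncomputable def logNorm {L : Type} [Field L] [NumberField L] (w : HeightOneSpectrum (𝓞 L)) : ℝ :=
  Real.log (Ideal.absNorm w.asIdeal)

/-- The local height `log (max_j |b_j| max_j |x_j| / |∑ b_j x_j|)` of the hyperplane `∑ b_j x_j = 0`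
at the point `x`, for an absolute value. -/
noncomputable def localHeight {L : Type} [Field L] {m : ℕ} (f : AbsoluteValue L ℝ)
    (b x : Fin (m + 1) → L) : ℝ :=
  Real.log ((⨆ j, f (b j)) * (⨆ j, f (x j)) / f (∑ j, b j * x j))

/-- The local height at a prime `w` of `L` (with the absolute value `N(w) ^ (- ord_w)`, so that it is
`log N(w)` times the intersection number). -/
noncomputable def primeHeight {L : Type} [Field L] [NumberField L] {m : ℕ}
    (w : HeightOneSpectrum (𝓞 L)) (b x : Fin (m + 1) → L) : ℝ :=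
  localHeight (FinitePlace.mk w).1 b x

/-- The proximity function `m_T` of the hyperplane `b`: the sum of the local heights over the infinite
places `w` of `L` (with the factor `[L_w : ℝ]`) and the primes in `T`, divided by `[L : ℚ]`. -/
noncomputable def proximity {L : Type} [Field L] [NumberField L] {m : ℕ}
    (T : Finset (HeightOneSpectrum (𝓞 L))) (b x : Fin (m + 1) → L) : ℝ :=
  (∑ w : InfinitePlace L, (w.mult : ℝ) * localHeight w.1 b x + ∑ w ∈ T, primeHeight w b x) /
    Module.finrank ℚ L

open Classical in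
/-- The truncated counting function over `L` of the hyperplanes `b_i`, `i ∈ J`: the sum of `log N(w)`
over the primes `w ∉ T` of `L` at which the local height of some `b_i`, `i ∈ J`, is positive,
divided by `[L : ℚ]`. -/
noncomputable def truncated {L : Type} [Field L] [NumberField L] {m q : ℕ}
    (T : Finset (HeightOneSpectrum (𝓞 L))) (J : Finset (Fin q)) (b : Fin q → Fin (m + 1) → L)
    (x : Fin (m + 1) → L) : ℝ :=
  (∑ᶠ w : HeightOneSpectrum (𝓞 L),
    if w ∉ T ∧ ∃ i ∈ J, 0 < primeHeight w (b i) x then logNorm w else 0) / Module.finrank ℚ L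

/-- A vector over `K`, in the extension `L` of `K`. -/
def ovr {K : Type} [Field K] (L : Type) [Field L] [Algebra K L] {m : ℕ} (b : Fin (m + 1) → K) :
    Fin (m + 1) → L := fun j => algebraMap K L (b j)

/-- There are a number field `L` containing `K`, a finite set `T` of primes of `L`, a set `J` of
indices and `e_i ≥ 1` for `i ∉ J` such that the intersection numbers of `x` and the hyperplane
`b_i`, `i ∉ J`, at the primes `w ∉ T` of `L` are zero or at least `e_i`, which violate
`(θ - ∑_{i ∉ J} 1 / e_i) h(x) + ∑_{i ∉ J} m_T(H_i, x) / e_i ≤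
N_{L,T}^{(1)}(D_J, x) + ∑_{w ∈ T} log N(w) / [L : ℚ] + d(L) + c`. -/
def Violates {K : Type} [Field K] {m q : ℕ} (θ c : ℝ) (b : Fin q → Fin (m + 1) → K)
    (x : Fin (m + 1) → K) : Prop :=
  ∃ (L : Type) (_ : Field L) (_ : NumberField L) (_ : Algebra K L)
    (T : Finset (HeightOneSpectrum (𝓞 L))) (J : Finset (Fin q)) (e : Fin q → ℕ),
    (∀ i ∉ J, 1 ≤ e i) ∧
    (∀ w ∉ T, ∀ i ∉ J, 0 < primeHeight w (ovr L (b i)) (ovr L x) →
      e i * logNorm w ≤ primeHeight w (ovr L (b i)) (ovr L x)) ∧
    truncated T J (fun i => ovr L (b i)) (ovr L x) +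
      (∑ w ∈ T, logNorm w) / Module.finrank ℚ L + logDisc L + c <
    (θ - ∑ i ∈ Jᶜ, 1 / (e i : ℝ)) * height (ovr L x) +
      ∑ i ∈ Jᶜ, 1 / (e i : ℝ) * proximity T (ovr L (b i)) (ovr L x)

/-- The coefficients of the hyperplanes in the larger field `K`. -/
noncomputable def liftTo {k K : IntermediateField ℚ ℂ} (h : k ≤ K) {m q : ℕ}
    (a : Fin q → Fin (m + 1) → k) : Fin q → Fin (m + 1) → K :=
  fun i j => IntermediateField.inclusion h (a i j)

/-- The field of definition `k(P)` of the point `P`: it is generated over `k` by the quotients of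
the coordinates of `P`. -/
noncomputable def fieldOf (k : IntermediateField ℚ ℂ) {m : ℕ} (P : ℙ ℂ (Fin (m + 1) → ℂ)) :
    IntermediateField ℚ ℂ :=
  k ⊔ IntermediateField.adjoin ℚ {z : ℂ | ∃ i j, P.rep j ≠ 0 ∧ z = P.rep i / P.rep j}

/-- The points `P` of `ℙ^m` whose field of definition `K = k(P)` has degree `r` over `k`, with
homogeneous coordinates `x` in `K`, of absolute height at most `log B`, off the hyperplanes. -/
def Points (k : IntermediateField ℚ ℂ) {m q : ℕ} (a : Fin q → Fin (m + 1) → k) (r : ℕ) (B : ℝ) :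
    Set (ℙ ℂ (Fin (m + 1) → ℂ)) :=
  {P | ∃ (K : IntermediateField ℚ ℂ) (_ : NumberField K) (h : k ≤ K) (x : Fin (m + 1) → K) (b : ℂ),
    fieldOf k P = K ∧ Module.finrank ℚ K = r * Module.finrank ℚ k ∧
    b ≠ 0 ∧ (∀ j, P.rep j = b * (x j : ℂ)) ∧ (∀ i, ∑ j, liftTo h a i j * x j ≠ 0) ∧
    height x ≤ Real.log B}

/-- The points `P` of `Points k a r B` for which the inequality is violated for some `L`, `T`, `J`,
`e`. -/
def Exceptions (k : IntermediateField ℚ ℂ) {m q : ℕ} (a : Fin q → Fin (m + 1) → k) (r : ℕ)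
    (θ c B : ℝ) : Set (ℙ ℂ (Fin (m + 1) → ℂ)) :=
  {P | ∃ (K : IntermediateField ℚ ℂ) (_ : NumberField K) (h : k ≤ K) (x : Fin (m + 1) → K) (b : ℂ),
    fieldOf k P = K ∧ Module.finrank ℚ K = r * Module.finrank ℚ k ∧
    b ≠ 0 ∧ (∀ j, P.rep j = b * (x j : ℂ)) ∧ (∀ i, ∑ j, liftTo h a i j * x j ≠ 0) ∧
    height x ≤ Real.log B ∧ Violates θ c (liftTo h a) x}

/-- There are `O(Δ ^ (alpha n c η))` number fields of degree `n` and discriminant at most `Δ`; here
`alpha n c η` is the smaller of `(n - 1) (n + 2) / (4 ⌈n / 2⌉)` and `c n ^ η`. -/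
noncomputable def alpha (n : ℕ) (c η : ℝ) : ℝ :=
  min (((n : ℝ) - 1) * (n + 2) / (4 * ((n + 1) / 2 : ℕ))) (c * (n : ℝ) ^ η)

/-! ### Comparison with the definitions of the starting file -/

section

variable {k : IntermediateField ℚ ℂ} {m q : ℕ}

lemma rep_smul {K : IntermediateField ℚ ℂ} {x : Fin (m + 1) → K} (hx : x ≠ 0) :
    ∃ s : K, s ≠ 0 ∧ (Projectivization.mk K x hx).rep = s • x := by
  obtain ⟨s, hs⟩ := Projectivization.exists_smul_eq_mk_rep K x hx
  exact ⟨(s : K), s.ne_zero, hs.symm⟩

lemma sum_smul {K : IntermediateField ℚ ℂ} (b : Fin (m + 1) → K) (s : K)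
    (x : Fin (m + 1) → K) : ∑ j, b j * (s • x) j = s * ∑ j, b j * x j := by
  rw [Finset.mul_sum]
  refine Finset.sum_congr rfl fun j _ => ?_
  rw [Pi.smul_apply, smul_eq_mul]
  ring

lemma height_eq {K : IntermediateField ℚ ℂ} [NumberField K] (Q : ℙ K (Fin (m + 1) → K)) :
    BoundedDegreeHyperplanes.height Q = height Q.rep := by
  unfold BoundedDegreeHyperplanes.height height
  rw [Height.logHeight_eq_log_mulHeight]
  congr 2
  conv_lhs => rw [← Q.mk_rep]
  exact Projectivization.mulHeight_mk _

lemma ne_zero_of {K : IntermediateField ℚ ℂ} {x : Fin (m + 1) → K} {P : ℙ ℂ (Fin (m + 1) → ℂ)}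
    {b : ℂ} (h : ∀ j, P.rep j = b * (x j : ℂ)) : x ≠ 0 := by
  rintro rfl
  apply P.rep_nonzero
  funext j
  rw [h j]
  simp

lemma toC_eq {K : IntermediateField ℚ ℂ} {x : Fin (m + 1) → K} (hx : x ≠ 0)
    {P : ℙ ℂ (Fin (m + 1) → ℂ)} {b : ℂ} (hb : b ≠ 0) (h : ∀ j, P.rep j = b * (x j : ℂ)) :
    BoundedDegreeHyperplanes.toC (Projectivization.mk K x hx) = P := by
  obtain ⟨s, hs, hr⟩ := rep_smul hx
  have hsC : (s : ℂ) ≠ 0 := by
    intro h0
    exact hs (by exact_mod_cast h0)
  conv_rhs => rw [← P.mk_rep]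
  unfold BoundedDegreeHyperplanes.toC
  rw [Projectivization.mk_eq_mk_iff']
  refine ⟨(s : ℂ) / b, ?_⟩
  funext j
  rw [Pi.smul_apply, smul_eq_mul, h j, hr, Pi.smul_apply, smul_eq_mul]
  push_cast
  field_simp

lemma height_smul {L : Type} [Field L] [NumberField L] {s : L} (hs : s ≠ 0)
    (x : Fin (m + 1) → L) : height (s • x) = height x := by
  unfold height
  rw [Height.logHeight_smul_eq_logHeight _ hs]

lemma localHeight_smul {L : Type} [Field L] (f : AbsoluteValue L ℝ) (b : Fin (m + 1) → L) {s : L}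
    (hs : s ≠ 0) (x : Fin (m + 1) → L) : localHeight f b (s • x) = localHeight f b x := by
  unfold localHeight
  have h1 : (⨆ j, f ((s • x) j)) = f s * ⨆ j, f (x j) := by
    rw [Real.mul_iSup_of_nonneg (f.nonneg s)]
    refine congrArg _ (funext fun j => ?_)
    rw [Pi.smul_apply, smul_eq_mul, map_mul]
  have h2 : ∑ j, b j * (s • x) j = s * ∑ j, b j * x j := by
    rw [Finset.mul_sum]
    refine Finset.sum_congr rfl fun j _ => ?_
    rw [Pi.smul_apply, smul_eq_mul]
    ring
  rw [h1, h2, map_mul, mul_left_comm, mul_div_mul_left _ _ (f.pos hs).ne']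

lemma Violates.smul {K : Type} [Field K] {θ c : ℝ} {b : Fin q → Fin (m + 1) → K}
    {x : Fin (m + 1) → K} (h : Violates θ c b x) {s : K} (hs : s ≠ 0) :
    Violates θ c b (s • x) := by
  obtain ⟨L, i1, i2, i3, T, J, e, he, hC, hv⟩ := h
  have hs' : algebraMap K L s ≠ 0 := by
    rw [Ne, map_eq_zero]
    exact hs
  have e1 : ovr L (s • x) = algebraMap K L s • ovr L x := by
    funext j
    simp [ovr, map_mul]
  have e2 : ∀ (f : AbsoluteValue L ℝ) (i : Fin q),
      localHeight f (ovr L (b i)) (ovr L (s • x)) = localHeight f (ovr L (b i)) (ovr L x) := by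
    intro f i
    rw [e1, localHeight_smul f _ hs']
  have e3 : height (ovr L (s • x)) = height (ovr L x) := by
    rw [e1, height_smul hs']
  refine ⟨L, i1, i2, i3, T, J, e, he, ?_, ?_⟩
  · intro w hw i hi hpos
    unfold primeHeight at hpos ⊢
    rw [e2] at hpos ⊢
    exact hC w hw i hi hpos
  · have e4 : truncated T J (fun i => ovr L (b i)) (ovr L (s • x)) =
        truncated T J (fun i => ovr L (b i)) (ovr L x) := by
      classical
      unfold truncated
      congr 1
      refine finsum_congr fun w => ?_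
      have e6 : (w ∉ T ∧ ∃ i ∈ J, 0 < primeHeight w (ovr L (b i)) (ovr L (s • x))) ↔
          (w ∉ T ∧ ∃ i ∈ J, 0 < primeHeight w (ovr L (b i)) (ovr L x)) := by
        unfold primeHeight
        simp only [e2]
      by_cases h0 : w ∉ T ∧ ∃ i ∈ J, 0 < primeHeight w (ovr L (b i)) (ovr L x)
      · rw [if_pos (e6.2 h0), if_pos h0]
      · rw [if_neg (fun h1 => h0 (e6.1 h1)), if_neg h0]
    have e5 : ∀ i, proximity T (ovr L (b i)) (ovr L (s • x)) =
        proximity T (ovr L (b i)) (ovr L x) := by
      intro i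
      unfold proximity primeHeight
      simp only [e2]
    rw [e3, e4]
    simp only [e5]
    exact hv

end

/-- **The truncated inequality over all extensions, for orbifold points, at almost all points of
degree `r`.** Let `η > 0`. There is `c₀ ≥ 1` such that the following holds for all number fields
`k ⊆ ℂ`, all `m ≥ 1`, all `q ≥ m + 1` hyperplanes in general position in `ℙ^m` over `k`, all
`r ≥ 2`; let `n = r [k : ℚ]`. For all `0 ≤ θ < q`, `c` and `δ > 0` there is `C` such that for all
`B ≥ 1` all but `C B ^ (n α θ + δ)`, `α = alpha n c₀ η`, of the points `x` of `ℙ^m` of degree `r` over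
`k` and of height at most `log B`, off the hyperplanes, satisfy
`(θ - ∑_{i ∉ J} 1 / e_i) h(x) + ∑_{i ∉ J} m_T(H_i, x) / e_i ≤
N_{L,T}^{(1)}(D_J, x) + ∑_{w ∈ T} log N(w) / [L : ℚ] + d(L) + c`
for ALL number fields `L ⊇ k(x)`, ALL finite sets `T` of primes of `L`, ALL sets `J` of indices and
ALL `e_i ≥ 1`, `i ∉ J`, such that the intersection numbers of `x` and `H_i`, `i ∉ J`, at the primes
`w ∉ T` of `L` are zero or at least `e_i`. And for every `δ > 0` there are `c₁ > 0` and `B₀` such that
for `B ≥ B₀` there are at least `c₁ B ^ (n (m + 1) - δ)` points `x` of degree `r` and height at most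
`log B`. -/
theorem result : ∀ η : ℝ, 0 < η → ∃ c₀ : ℝ, 1 ≤ c₀ ∧
    ∀ (k : IntermediateField ℚ ℂ) [NumberField k] (m q r n : ℕ), 1 ≤ m → m + 1 ≤ q → 2 ≤ r →
      n = r * Module.finrank ℚ k → ∀ a : Fin q → Fin (m + 1) → k,
      (∀ I : Finset (Fin q), I.card = m + 1 → LinearIndependent k (fun i : I => a i)) →
      (∀ θ c δ : ℝ, 0 ≤ θ → θ < q → 0 < δ → ∃ C : ℝ, ∀ B : ℝ, 1 ≤ B →
        (Exceptions k a r θ c B).Finite ∧ ((Exceptions k a r θ c B).ncard : ℝ) ≤
          C * B ^ ((n : ℝ) * (alpha n c₀ η * θ) + δ)) ∧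
      (∀ δ : ℝ, 0 < δ → ∃ c₁ B₀ : ℝ, 0 < c₁ ∧ ∀ B : ℝ, B₀ ≤ B →
        ∃ F : Finset (ℙ ℂ (Fin (m + 1) → ℂ)), (F : Set (ℙ ℂ (Fin (m + 1) → ℂ))) ⊆ Points k a r B ∧
          c₁ * B ^ ((n : ℝ) * (m + 1) - δ) ≤ (F.card : ℝ)) := by
  intro η hη
  obtain ⟨c₀, hc₀, H⟩ := BoundedDegreeHyperplanes.result η hη
  refine ⟨c₀, hc₀, ?_⟩
  intro k _ m q r n hm hq hr hn a ha
  obtain ⟨H1, H2⟩ := H k m q r n hm hq hr hn a ha
  refine ⟨?_, ?_⟩
  · intro θ c δ hθ hθq hδ
    obtain ⟨c', hc'⟩ := Pool.Agent.U587.FD.orbCore k hq a ha θ c hθ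
    obtain ⟨C, hC⟩ := H1 θ c' δ hθ hθq hδ
    refine ⟨C, fun B hB => ?_⟩
    obtain ⟨h1, h2⟩ := hC B hB
    have hsub : Exceptions k a r θ c B ⊆ BoundedDegreeHyperplanes.Exceptions k a r θ c' B := by
      rintro P ⟨K, hK, h, x, b, hf, hdeg, hb, hrep, hval, hht, hv⟩
      have hx : x ≠ 0 := ne_zero_of hrep
      obtain ⟨s, hs, hr⟩ := rep_smul hx
      set Q : ℙ K (Fin (m + 1) → K) := Projectivization.mk K x hx with hQ
      have hvalQ : ∀ i, BoundedDegreeHyperplanes.value
          (BoundedDegreeHyperplanes.liftTo h a i) Q = s * ∑ j, liftTo h a i j * x j := by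
        intro i
        rw [← sum_smul, ← hr]
        rfl
      refine ⟨K, hK, h, Q, hf, hdeg, toC_eq hx hb hrep, ?_, ?_, ?_⟩
      · intro i
        rw [hvalQ i]
        exact mul_ne_zero hs (hval i)
      · rw [height_eq, hr, height_smul hs]
        exact hht
      · refine hc' K hK h Q (fun i => ?_) ?_
        · rw [hvalQ i]
          exact mul_ne_zero hs (hval i)
        · have h3 := hv.smul hs
          rw [← hr] at h3
          exact h3
    refine ⟨h1.subset hsub, le_trans ?_ h2⟩
    exact_mod_cast Set.ncard_le_ncard hsub h1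
  · intro δ hδ
    obtain ⟨c₁, B₀, hc₁, h⟩ := H2 δ hδ
    refine ⟨c₁, B₀, hc₁, fun B hB => ?_⟩
    obtain ⟨F, hF, hcard⟩ := h B hB
    refine ⟨F, fun P hP => ?_, hcard⟩
    obtain ⟨K, hK, h, Q, hf, hdeg, hQ, hval, hht⟩ := hF hP
    obtain ⟨b, hb, hrep⟩ := BoundedDegreeHyperplanes.rep_toC Q
    refine ⟨K, hK, h, Q.rep, b, hf, hdeg, hb, ?_, hval, ?_⟩
    · rw [← hQ]
      exact hrep
    · rw [← height_eq]
      exact hht

end Pool.Agent.Results.MP_44a246_nt.OrbifoldPointsDegreeR
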