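import Mathlib
import Pool.Agent.U583.VD.Line

/-!
# A weak truncated inequality for the points of degree `r` of the pairs `(V, D)`

Let `V` be a projective variety over `ℚ`, `D` the union of the divisors `D_i : g_i = 0` of `V`, `i = 0, …, n`, with forms `g_i` of
the same degree (they may be powers, so the components of `D` can have multiples in the same class), such that no `r` points of
`V` meet all the `D_i`, and suppose that the closure of the image of `(V - D)^r` in the torus of dimension `n`, under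
`(P_1, …, P_r) ↦ (∏_k g_i(P_k) / g_0(P_k))_i`, is not invariant under a subtorus of positive dimension. For a point `P` of degree `r` of
`V` over `ℚ`, or an effective cycle of degree `r`, let `N1` be the sum of `log p` over the primes `p` outside of `S` below a
prime at which `P` meets `D`. So `N1 ≤ r N_S^(1)(D, P)`.

We prove `h(P) ≤ A (N1 + 1)` for the points which meet `D` with few different multiplicities, up to few hypersurfaces: for all
`N`, `k` and `ε > 0` there are `A` and `δ > 0` such that for every `Z ≥ 2` at most `A Z ^ ε` forms `G` of degree `≤ A`, not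
zero on the image of `(V - D)^r`, are such that `h(P) ≤ A (N1 + 1)` for all the points `P` of degree `r` outside of `G(N g_0, …, N g_n) = 0`
with `N1 ≤ log Z`, for which the vectors of the multiplicities in which `P` meets the `D_i` over `p` take, up to differences
`≤ k`, at most `N` values, and `h(P) ≤ exp (δ N1)`. The same is true if the norms of the `g_i(P)` are products of powers of `N`
integers `≤ exp (k (N1 + 1))`.

Proof. The norms `u_i` of the `g_i` at `P` have a bounded common divisor (Nullstellensatz for `V^r`, evaluated at the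
conjugates of `P` in a valuation ring of `ℂ` over each prime, `Loc`), and their size is the power `d` of the height of `P`
up to bounded factors (compactness, `Arch`). So we get rational points of the closure of the image in the torus. For those a
weak truncated inequality is proved in `U583.TV` and `Gen` (`p`-adic determinant method of the library); as a prime may divide
all the `u_i`, the bound `N1` of the cycle has to replace the counting function of the point of the torus (`Gen`, `Few`).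
-/

set_option autoImplicit false

namespace Pool.Agent.Results.MP_44a246_nt.WeakTruncatedAllDegrees

open MvPolynomial Pool.Agent.U583.VD

variable {σ : Type} [Fintype σ] {n s : ℕ}

theorem weak {r d : ℕ} {F : Fin s → MvPolynomial σ ℤ} {g : Fin (n + 1) → MvPolynomial σ ℤ}
    (h : IsPair r d F g) (S : Finset ℕ) (N k : ℕ) (ε : ℝ) (hε : 0 < ε) :
    ∃ A δ : ℝ, 0 < δ ∧ ∀ Z : ℕ, 2 ≤ Z → ∃ 𝒢 : Finset (MvPolynomial (Fin (n + 1)) ℚ),
      (𝒢.card : ℝ) ≤ A * (Z : ℝ) ^ ε ∧
      (∀ G ∈ 𝒢, (∃ e : ℕ, (e : ℝ) ≤ A ∧ G.IsHomogeneous e) ∧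
        ∃ v ∈ Img r F g, aeval (Fin.cons 1 v : Fin (n + 1) → ℂ) G ≠ 0) ∧
      ∀ (Ψ : MvPolynomial σ ℤ) (u : Fin (n + 1) → ℤ), IsCycle r F g Ψ u → (∀ i, u i ≠ 0) →
        N1U S u ≤ Real.log Z →
        (GensU S N k δ u ∨ FewU S N k u ∧ hF Ψ ≤ Real.exp (δ * N1U S u)) →
        hF Ψ ≤ A * (N1U S u + 1) ∨ ∃ G ∈ 𝒢, aeval (fun i => (u i : ℚ)) G = 0 := by
  classical
  have hb : ∀ y : Fin r → σ → ℂ, (∀ k q, aeval (y k) (F q) = 0) →
      (∀ i, ∏ k, aeval (y k) (g i) = 0) → ∃ k, y k = 0 := fun y hy hi =>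
    h.free y hy fun i => by
      obtain ⟨k, -, hk⟩ := Finset.prod_eq_zero_iff.1 (hi i)
      exact ⟨k, hk⟩
  obtain ⟨D, hD, hDG⟩ := cyc_gcd h.homF h.homg hb
  obtain ⟨C, hC, hCy⟩ := cyc_heights h.pos h.homF h.homg hb
  obtain ⟨A, δ, hA, hδ, H⟩ := absT (Img r F g) (by
    rintro _ ⟨y, -, hy, rfl⟩ i
    exact Finset.prod_ne_zero_iff.2 fun k _ => div_ne_zero (hy k _) (hy k _)) h.stab S hD N k ε hε
  refine ⟨A + C + (2 * C + 1), δ / 2, by positivity, fun Z hZ => ?_⟩
  obtain ⟨𝒢, h1, h2, h3⟩ := H Z hZ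
  refine ⟨𝒢, h1.trans (mul_le_mul_of_nonneg_right (by linarith) (by positivity)),
    fun G hG => ?_, ?_⟩
  · obtain ⟨⟨e, he, hGe⟩, hv⟩ := h2 G hG
    exact ⟨⟨e, he.trans (by linarith), hGe⟩, hv⟩
  · intro Ψ u hcyc hu hNZ hP
    obtain ⟨c1, c2⟩ := hCy Ψ u hcyc hu
    obtain ⟨L, hL⟩ : ∃ L : ℝ, L = N1U S u := ⟨_, rfl⟩
    have hL0 : 0 ≤ L := by
      rw [hL]
      exact Finset.sum_nonneg fun p _ => Real.log_natCast_nonneg p
    have hH0 : 0 ≤ hF Ψ := Real.log_natCast_nonneg _
    have hImg : (fun i => (u (Fin.succ i) : ℂ) / u 0) ∈ Img r F g := by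
      obtain ⟨-, y, hyF, -, hyu⟩ := hcyc
      refine ⟨y, hyF, fun k i hk => hu i ?_, ?_⟩
      · have : (u i : ℂ) = 0 := by
          rw [hyu]
          exact Finset.prod_eq_zero (Finset.mem_univ k) hk
        exact_mod_cast this
      · funext i
        rw [hyu, hyu, Finset.prod_div_distrib]
    have hexp : Real.exp (δ / 2 * L) ≤ Real.exp (δ * L) := Real.exp_le_exp.2 (by nlinarith)
    have hfin : (GensU S N k δ u ∨ FewU S N k u ∧ hU u ≤ Real.exp (δ * N1U S u)) →
        hF Ψ ≤ (A + C + (2 * C + 1)) * (L + 1) ∨ ∃ G ∈ 𝒢, aeval (fun i => (u i : ℚ)) G = 0 := by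
      intro h4
      rcases h3 u hu (hDG Ψ u hcyc) hImg hNZ h4 with h5 | h5
      · left
        rw [← hL] at h5
        nlinarith [mul_nonneg hC hL0]
      · exact Or.inr h5
    rw [← hL]
    rcases hP with ⟨η, b, e, g1, g2, g3, g4⟩ | ⟨h4, h5⟩
    · refine hfin (Or.inl ⟨η, b, e, g1, g2, fun i j => (g3 i j).trans ?_, g4⟩)
      rw [← hL]
      exact hexp
    · rw [← hL] at h5
      rcases lt_or_ge (Real.exp (δ / 2 * L)) (2 * C + 1) with h6 | h6
      · left
        have e1 : 2 * C + 1 ≤ A + C + (2 * C + 1) := by linarith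
        exact (h5.trans h6.le).trans (e1.trans (le_mul_of_one_le_right (by positivity)
          (by linarith)))
      · refine hfin (Or.inr ⟨h4, ?_⟩)
        rw [← hL]
        have e1 : Real.exp (δ * L) = Real.exp (δ / 2 * L) * Real.exp (δ / 2 * L) := by
          rw [← Real.exp_add]
          congr 1
          ring
        have e2 : (1 : ℝ) ≤ Real.exp (δ / 2 * L) := Real.one_le_exp (by positivity)
        rw [e1]
        calc hU u ≤ C * (hF Ψ + 1) := c2
          _ ≤ C * (Real.exp (δ / 2 * L) + Real.exp (δ / 2 * L)) :=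
              mul_le_mul_of_nonneg_left (by linarith) hC
          _ = (2 * C) * Real.exp (δ / 2 * L) := by ring
          _ ≤ _ := mul_le_mul_of_nonneg_right (by linarith) (Real.exp_pos _).le

/-- **A weak truncated inequality for the points of degree `r` of the pairs `(V, D)`**, up to few hypersurfaces: (1) for all
pairs; (2) each `r` and at least `r + 2` points of the projective line are such a pair. -/
theorem result :
    (∀ (σ : Type) [Fintype σ] (n s r d : ℕ) (F : Fin s → MvPolynomial σ ℤ)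
      (g : Fin (n + 1) → MvPolynomial σ ℤ), IsPair r d F g →
      ∀ (S : Finset ℕ) (N k : ℕ) (ε : ℝ), 0 < ε →
      ∃ A δ : ℝ, 0 < δ ∧ ∀ Z : ℕ, 2 ≤ Z → ∃ 𝒢 : Finset (MvPolynomial (Fin (n + 1)) ℚ),
        (𝒢.card : ℝ) ≤ A * (Z : ℝ) ^ ε ∧
        (∀ G ∈ 𝒢, (∃ e : ℕ, (e : ℝ) ≤ A ∧ G.IsHomogeneous e) ∧
          ∃ v ∈ Img r F g, aeval (Fin.cons 1 v : Fin (n + 1) → ℂ) G ≠ 0) ∧
        ∀ (Ψ : MvPolynomial σ ℤ) (u : Fin (n + 1) → ℤ), IsCycle r F g Ψ u → (∀ i, u i ≠ 0) →
          N1U S u ≤ Real.log Z →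
          (GensU S N k δ u ∨ FewU S N k u ∧ hF Ψ ≤ Real.exp (δ * N1U S u)) →
          hF Ψ ≤ A * (N1U S u + 1) ∨ ∃ G ∈ 𝒢, aeval (fun i => (u i : ℚ)) G = 0) ∧
    ∀ (n r : ℕ) (a b : Fin (n + 1) → ℤ), (∀ i j, i ≠ j → a i * b j - a j * b i ≠ 0) →
      r + 1 ≤ n → IsPair r 1 noF (lineForm a b) :=
  ⟨fun _ _ _ _ _ _ _ _ h S N k ε hε => weak h S N k ε hε, fun _ _ _ _ hab hr => line hab hr⟩

end Pool.Agent.Results.MP_44a246_nt.WeakTruncatedAllDegrees
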